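import Mathlib
import Pool.Agent.H8.HamCodes

/-!
# A gap in the numbers of Hamiltonian circuits of 7-tournaments

We show that some 7-tournament has 24 Hamiltonian circuits, that this is the maximum, and that
no 7-tournament has exactly 23 Hamiltonian circuits.
-/

open Equiv

namespace Pool.Agent.Results.MP_9038fc_co.GapSeven

/-- An `n`-tournament on the vertex set `Fin n`: there are no loops, and for any two distinct
vertices exactly one of the two arcs between them is present. -/
structure Tournament (n : ℕ) where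
  /-- `arc u v` means that the arc from `u` to `v` is present. -/
  arc : Fin n → Fin n → Prop
  no_loop : ∀ u, ¬ arc u u
  exactly_one : ∀ u v, u ≠ v → (arc u v ∧ ¬ arc v u) ∨ (arc v u ∧ ¬ arc u v)

/-- `A` is the arc set of a Hamiltonian circuit `v 0 → v 1 → ⋯ → v (n-1) → v 0` of `T`.
(`finRotate n` is the cyclic shift `i ↦ i + 1` of `Fin n`.) -/
def IsHamCircuit {n : ℕ} (T : Tournament n) (A : Set (Fin n × Fin n)) : Prop :=
  ∃ v : Equiv.Perm (Fin n), (∀ i, T.arc (v i) (v (finRotate n i))) ∧
    A = Set.range (fun i => (v i, v (finRotate n i)))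

/-- The number of Hamiltonian circuits of `T`; two circuits are the same iff they have the same
set of arcs. -/
noncomputable def numHam {n : ℕ} (T : Tournament n) : ℕ :=
  Set.ncard {A : Set (Fin n × Fin n) | IsHamCircuit T A}

/-- `ho n` is the largest number of Hamiltonian circuits of an `n`-tournament. -/
noncomputable def ho (n : ℕ) : ℕ := sSup (Set.range (fun T : Tournament n => numHam T))

/-! ### Proofs -/

open Pool.Agent.H8.HamCodes

/-- the permutation of `Fin 7` fixing `0` attached to `e`. -/
def vv (e : Perm (Fin 6)) : Perm (Fin 7) := Equiv.Perm.decomposeFin.symm (0, e)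

theorem vv_apply (e : Perm (Fin 6)) (k : Fin 7) : vv e k = seqv e k := by
  refine Fin.cases ?_ (fun j => ?_) k
  · simp [vv, seqv]
  · simp [vv, seqv]

theorem vv_inj {e e' : Perm (Fin 6)} (h : vv e = vv e') : e = e' := by
  have := Equiv.Perm.decomposeFin.symm.injective h
  simpa using this

def arcsOf (e : Perm (Fin 6)) : Set (Fin 7 × Fin 7) :=
  Set.range (fun i => (vv e i, vv e (i + 1)))

theorem arcsOf_inj : Function.Injective arcsOf := by
  intro e e' h
  apply vv_inj
  have key : ∀ n : ℕ, ∀ hn : n < 7, vv e ⟨n, hn⟩ = vv e' ⟨n, hn⟩ := by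
    intro n
    induction n with
    | zero =>
      intro hn
      have h1 : vv e 0 = 0 := by simp [vv]
      have h2 : vv e' 0 = 0 := by simp [vv]
      exact h1.trans h2.symm
    | succ n ih =>
      intro hn
      have hn' : n < 7 := by omega
      have hk := ih hn'
      have hs : (⟨n + 1, hn⟩ : Fin 7) = ⟨n, hn'⟩ + 1 := by
        apply Fin.ext
        rw [Fin.val_add]
        simp only [Fin.val_one]
        omega
      have hm : (vv e ⟨n, hn'⟩, vv e (⟨n, hn'⟩ + 1)) ∈ arcsOf e' := by
        rw [← h]; exact ⟨_, rfl⟩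
      obtain ⟨m, hm⟩ := hm
      simp only [Prod.mk.injEq] at hm
      have : m = ⟨n, hn'⟩ := by
        apply (vv e').injective
        rw [hm.1, hk]
      subst this
      rw [hs]
      exact hm.2.symm
  ext k
  rw [key k.1 k.2]

theorem isHam_iff (T : Tournament 7) (A : Set (Fin 7 × Fin 7)) :
    IsHamCircuit T A ↔ ∃ e : Perm (Fin 6), (∀ i : Fin 7, T.arc (vv e i) (vv e (i + 1))) ∧
      arcsOf e = A := by
  constructor
  · rintro ⟨v, hv, rfl⟩
    let k0 : Fin 7 := v.symm 0
    let v' : Perm (Fin 7) := (Equiv.addRight k0).trans v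
    have hv' : ∀ i, v' i = v (i + k0) := fun i => rfl
    have h0 : v' 0 = 0 := by
      rw [hv', zero_add]; exact v.apply_symm_apply 0
    obtain ⟨⟨p, e⟩, hpe⟩ := Equiv.Perm.decomposeFin.symm.surjective v'
    have hp : p = 0 := by
      have := Equiv.Perm.decomposeFin_symm_apply_zero p e
      rw [hpe, h0] at this
      exact this.symm
    subst hp
    have hve : vv e = v' := hpe
    refine ⟨e, ?_, ?_⟩
    · intro i
      rw [hve, hv', hv']
      have := hv (i + k0)
      rw [finRotate_apply] at this
      rw [add_right_comm]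
      exact this
    · ext x
      constructor
      · rintro ⟨i, rfl⟩
        refine ⟨i + k0, ?_⟩
        simp only [hve, hv', finRotate_apply]
        rw [add_right_comm]
      · rintro ⟨i, rfl⟩
        refine ⟨i - k0, ?_⟩
        simp only [hve, hv', finRotate_apply]
        rw [sub_add_cancel, add_right_comm, sub_add_cancel]
  · rintro ⟨e, he, rfl⟩
    refine ⟨vv e, ?_, ?_⟩
    · intro i
      rw [finRotate_apply]; exact he i
    · simp only [arcsOf, finRotate_apply]

/-- compatibility of a code with a tournament, tested on a list of pairs. -/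
def good (t : Fin 7 → Fin 7 → Bool) (l : List (Fin 7 × Fin 7)) (c : ℕ) : Bool :=
  l.all (fun p => !(c.testBit (if t p.1 p.2 then ix p.2 p.1 else ix p.1 p.2)))

theorem filter_good_cons (t : Fin 7 → Fin 7 → Bool) (p : Fin 7 × Fin 7)
    (l : List (Fin 7 × Fin 7)) (S : List ℕ) :
    S.filter (good t (p :: l)) = (step p (t p.1 p.2) S).filter (good t l) := by
  unfold step
  cases h : t p.1 p.2
  · simp only [List.filter_filter]
    apply List.filter_congr
    intro c _
    simp [good, h, Bool.and_comm]
  · simp only [List.filter_filter]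
    apply List.filter_congr
    intro c _
    simp [good, h, Bool.and_comm]

theorem chk_sound (t : Fin 7 → Fin 7 → Bool) (l : List (Fin 7 × Fin 7)) :
    ∀ S : List ℕ, chk l S = true →
      (S.filter (good t l)).length < 23 ∨ (S.filter (good t l)).length = 24 := by
  induction l with
  | nil =>
    intro S h
    have : S.filter (good t []) = S := by simp [good]
    rw [this]
    simp only [chk, Bool.or_eq_true] at h
    rcases h with h | h
    · left; simpa [Nat.blt_eq] using h
    · right; simpa using h
  | cons p l ih =>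
    intro S h
    simp only [chk, Bool.or_eq_true, Bool.and_eq_true] at h
    rcases h with h | h
    · left
      have h1 : S.length < 23 := by simpa [Nat.blt_eq] using h
      exact lt_of_le_of_lt (List.length_filter_le _ _) h1
    · rw [filter_good_cons]
      cases ht : t p.1 p.2
      · exact ih _ h.2
      · exact ih _ h.1

theorem code_testBit (e : Perm (Fin 6)) (a b : Fin 7) :
    (code e).testBit (ix a b) = true ↔ ∃ k : Fin 7, vv e k = a ∧ vv e (k + 1) = b := by
  have hix : ∀ c d : Fin 7, ix c d = ix a b ↔ c = a ∧ d = b := by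
    intro c d
    unfold ix
    constructor
    · intro h
      have h1 := c.2
      have h2 := d.2
      have h3 := a.2
      have h4 := b.2
      constructor <;> apply Fin.ext <;> omega
    · rintro ⟨rfl, rfl⟩; rfl
  simp only [code, Nat.testBit_or, Nat.testBit_two_pow, Bool.or_eq_true, decide_eq_true_eq, hix,
    vv_apply]
  constructor
  · rintro ((((((h | h) | h) | h) | h) | h) | h)
    · exact ⟨0, h⟩
    · exact ⟨1, h⟩
    · exact ⟨2, h⟩
    · exact ⟨3, h⟩
    · exact ⟨4, h⟩
    · exact ⟨5, h⟩
    · exact ⟨6, h⟩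
  · rintro ⟨k, h⟩
    fin_cases k
    · exact Or.inl (Or.inl (Or.inl (Or.inl (Or.inl (Or.inl h)))))
    · exact Or.inl (Or.inl (Or.inl (Or.inl (Or.inl (Or.inr h)))))
    · exact Or.inl (Or.inl (Or.inl (Or.inl (Or.inr h))))
    · exact Or.inl (Or.inl (Or.inl (Or.inr h)))
    · exact Or.inl (Or.inl (Or.inr h))
    · exact Or.inl (Or.inr h)
    · exact Or.inr h

theorem mem_pairs : ∀ i j : Fin 7, i < j → (i, j) ∈ pairs0 ++ pairs1 := by
  decide

theorem lt_of_mem_pairs : ∀ p ∈ pairs0 ++ pairs1, p.1 < p.2 := by
  decide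

theorem good_code (T : Tournament 7) (t : Fin 7 → Fin 7 → Bool)
    (ht : ∀ u v, T.arc u v ↔ t u v = true) (e : Perm (Fin 6)) :
    good t (pairs0 ++ pairs1) (code e) = true ↔
      ∀ i : Fin 7, T.arc (vv e i) (vv e (i + 1)) := by
  unfold good
  rw [List.all_eq_true]
  constructor
  · intro h i
    have hne : vv e i ≠ vv e (i + 1) := by
      intro h'
      exact (by decide : ∀ j : Fin 7, j ≠ j + 1) i ((vv e).injective h')
    by_contra hT
    rcases lt_or_gt_of_ne hne with hlt | hlt
    · have h1 := h _ (mem_pairs _ _ hlt)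
      have h2 : t (vv e i) (vv e (i + 1)) = false := by
        rw [Bool.eq_false_iff]
        intro h3; exact hT ((ht _ _).2 h3)
      simp only [h2] at h1
      have h4 := (code_testBit e (vv e i) (vv e (i + 1))).2 ⟨i, rfl, rfl⟩
      simp [h4] at h1
    · have h1 := h _ (mem_pairs _ _ hlt)
      have h2 : t (vv e (i + 1)) (vv e i) = true := by
        rw [← ht]
        rcases T.exactly_one _ _ hne with h3 | h3
        · exact absurd h3.1 hT
        · exact h3.1
      simp only [h2] at h1
      have h4 := (code_testBit e (vv e i) (vv e (i + 1))).2 ⟨i, rfl, rfl⟩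
      simp [h4] at h1
  · intro h p hp
    have hlt := lt_of_mem_pairs p hp
    rw [Bool.not_eq_true', Bool.eq_false_iff]
    intro hb
    cases htp : t p.1 p.2
    · rw [htp] at hb
      simp only [Bool.false_eq_true, if_false] at hb
      obtain ⟨k, h1, h2⟩ := (code_testBit e _ _).1 hb
      have := h k
      rw [h1, h2, ht, htp] at this
      exact absurd this (by simp)
    · rw [htp] at hb
      simp only [if_true] at hb
      obtain ⟨k, h1, h2⟩ := (code_testBit e _ _).1 hb
      have h3 := h k
      rw [h1, h2] at h3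
      have h4 := (ht _ _).2 htp
      rcases T.exactly_one _ _ hlt.ne with h5 | h5
      · exact h5.2 h3
      · exact h5.2 h4

theorem numHam_eq (T : Tournament 7) (t : Fin 7 → Fin 7 → Bool)
    (ht : ∀ u v, T.arc u v ↔ t u v = true) :
    numHam T = (codes.filter (good t (pairs0 ++ pairs1))).length := by
  classical
  rw [← codes_eq, List.filter_map, List.length_map]
  have h1 : {A : Set (Fin 7 × Fin 7) | IsHamCircuit T A} = arcsOf ''
      (((permsOfList (List.finRange 6)).filter
        (good t (pairs0 ++ pairs1) ∘ code)).toFinset : Set (Perm (Fin 6))) := by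
    ext A
    simp only [Set.mem_setOf_eq, isHam_iff, Set.mem_image, List.coe_toFinset,
      List.mem_filter, Function.comp, good_code T t ht]
    constructor
    · rintro ⟨e, he, rfl⟩
      exact ⟨e, ⟨mem_permsOfList_of_mem (fun x _ => List.mem_finRange x), he⟩, rfl⟩
    · rintro ⟨e, ⟨_, he⟩, rfl⟩
      exact ⟨e, he, rfl⟩
  rw [numHam, h1, Set.ncard_image_of_injective _ arcsOf_inj, Set.ncard_coe_finset,
    List.toFinset_card_of_nodup]
  exact (List.Nodup.filter _ (nodup_permsOfList (List.nodup_finRange 6)))

/-! ### Relabelling -/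

def relabel (T : Tournament 7) (π : Perm (Fin 7)) : Tournament 7 where
  arc u v := T.arc (π u) (π v)
  no_loop u := T.no_loop _
  exactly_one u v h := T.exactly_one _ _ (fun h' => h (π.injective h'))

theorem numHam_relabel (T : Tournament 7) (π : Perm (Fin 7)) :
    numHam (relabel T π) = numHam T := by
  have h1 : {A : Set (Fin 7 × Fin 7) | IsHamCircuit T A} = (fun A => Prod.map π π '' A) ''
      {A : Set (Fin 7 × Fin 7) | IsHamCircuit (relabel T π) A} := by
    ext A
    constructor
    · rintro ⟨v, hv, rfl⟩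
      refine ⟨Set.range (fun i => (π.symm (v i), π.symm (v (finRotate 7 i)))), ?_, ?_⟩
      · refine ⟨v.trans π.symm, ?_, rfl⟩
        intro i
        show T.arc (π (π.symm (v i))) (π (π.symm (v (finRotate 7 i))))
        rw [Equiv.apply_symm_apply, Equiv.apply_symm_apply]
        exact hv i
      · simp only []
        rw [← Set.range_comp]
        congr 1
        ext i <;> simp
    · rintro ⟨B, ⟨v, hv, rfl⟩, rfl⟩
      refine ⟨v.trans π, hv, ?_⟩
      simp only []
      rw [← Set.range_comp]
      rfl
  unfold numHam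
  rw [h1, Set.ncard_image_of_injective]
  exact Set.image_injective.2 (Function.Injective.prodMap π.injective π.injective)

theorem exists_k : ∀ a b c d e f : Bool, a ≤ b → b ≤ c → c ≤ d → d ≤ e → e ≤ f →
    ∃ k ∈ List.range 7, a = Nat.ble k 0 ∧ b = Nat.ble k 1 ∧ c = Nat.ble k 2 ∧ d = Nat.ble k 3 ∧
      e = Nat.ble k 4 ∧ f = Nat.ble k 5 := by
  have key : ∀ a b c d e f : Bool, (a ≤ b ∧ b ≤ c ∧ c ≤ d ∧ d ≤ e ∧ e ≤ f) →
    ((List.range 7).any (fun k => (a == Nat.ble k 0) && (b == Nat.ble k 1) && (c == Nat.ble k 2) &&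
      (d == Nat.ble k 3) && (e == Nat.ble k 4) && (f == Nat.ble k 5))) = true := by decide
  intro a b c d e f h1 h2 h3 h4 h5
  have := key a b c d e f ⟨h1, h2, h3, h4, h5⟩
  rw [List.any_eq_true] at this
  obtain ⟨k, hk, hk2⟩ := this
  simp only [Bool.and_eq_true, beq_iff_eq] at hk2
  exact ⟨k, hk, hk2.1.1.1.1.1, hk2.1.1.1.1.2, hk2.1.1.1.2, hk2.1.1.2, hk2.1.2, hk2.2⟩

theorem numHam_cases (T : Tournament 7) : numHam T < 23 ∨ numHam T = 24 := by
  classical
  let f : Fin 6 → Bool := fun j => decide (T.arc 0 j.succ)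
  let π : Perm (Fin 7) := vv (Tuple.sort f)
  let t : Fin 7 → Fin 7 → Bool := fun u v => decide ((relabel T π).arc u v)
  have ht : ∀ u v, (relabel T π).arc u v ↔ t u v = true := by
    intro u v; simp [t]
  have hmono : Monotone (f ∘ Tuple.sort f) := Tuple.monotone_sort f
  have hf : ∀ j : Fin 6, t 0 j.succ = (f ∘ Tuple.sort f) j := by
    intro j
    have h0 : π 0 = 0 := by simp [π, vv]
    have h1 : π j.succ = (Tuple.sort f j).succ := by simp [π, vv]
    simp [t, f, relabel, h0, h1]
  have hm : ∀ i j : Fin 6, i ≤ j → t 0 i.succ ≤ t 0 j.succ := by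
    intro i j hij
    rw [hf, hf]; exact hmono hij
  obtain ⟨k, hk, h1, h2, h3, h4, h5, h6⟩ := exists_k (t 0 1) (t 0 2) (t 0 3) (t 0 4) (t 0 5) (t 0 6)
    (hm 0 1 (by decide)) (hm 1 2 (by decide)) (hm 2 3 (by decide)) (hm 3 4 (by decide))
    (hm 4 5 (by decide))
  rw [← numHam_relabel T π, numHam_eq _ t ht]
  have hfil : codes.filter (good t (pairs0 ++ pairs1)) = (row k codes).filter (good t pairs1) := by
    show codes.filter (good t ((0, 1) :: (0, 2) :: (0, 3) :: (0, 4) :: (0, 5) :: (0, 6) :: pairs1))
      = _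
    rw [filter_good_cons, filter_good_cons, filter_good_cons, filter_good_cons, filter_good_cons,
      filter_good_cons]
    simp only [h1, h2, h3, h4, h5, h6]
    rfl
  rw [hfil]
  apply chk_sound
  exact (List.all_eq_true.1 chk_all) k hk

/-! ### The Paley tournament -/

def paleyB (u v : Fin 7) : Bool := (v - u == 1) || (v - u == 2) || (v - u == 4)

def paley : Tournament 7 where
  arc u v := paleyB u v = true
  no_loop := by decide
  exactly_one := by decide

theorem numHam_paley : numHam paley = 24 := by
  rw [numHam_eq paley paleyB (fun u v => Iff.rfl)]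
  decide +kernel

theorem ho_seven : ho 7 = 24 := by
  have hb : ∀ m ∈ Set.range (fun T : Tournament 7 => numHam T), m ≤ 24 := by
    rintro m ⟨T, rfl⟩
    rcases numHam_cases T with h | h
    · exact le_of_lt (lt_trans h (by norm_num))
    · exact le_of_eq h
  apply le_antisymm
  · exact csSup_le ⟨_, ⟨paley, rfl⟩⟩ hb
  · exact le_csSup ⟨24, hb⟩ ⟨paley, numHam_paley⟩

/-- There is `n ≥ 1` and `h` with `0 ≤ h ≤ ho n` such that no `n`-tournament has exactly `h`
Hamiltonian circuits: indeed `ho 7 = 24`, and no 7-tournament has exactly 23 of them. -/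
theorem result :
    (ho 7 = 24 ∧ ∀ T : Tournament 7, numHam T ≠ 23) ∧
    ¬ (∀ n : ℕ, 1 ≤ n → ∀ h : ℕ, h ≤ ho n → ∃ T : Tournament n, numHam T = h) := by
  have h23 : ∀ T : Tournament 7, numHam T ≠ 23 := by
    intro T h
    rcases numHam_cases T with h' | h' <;> omega
  refine ⟨⟨ho_seven, h23⟩, ?_⟩
  intro hall
  obtain ⟨T, hT⟩ := hall 7 (by norm_num) 23 (by rw [ho_seven]; norm_num)
  exact h23 T hT

end Pool.Agent.Results.MP_9038fc_co.GapSeven
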